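import Pool.Agent.P8H78.SF.Base
import Pool.Agent.P8H46.SF.Zer
import Pool.Agent.P8H26.SF.Two
import Pool.Agent.P8H10.SF.App

/-!
# Project TW: one eigenvector
-/

set_option autoImplicit false

open Matrix Module

namespace Pool.Agent.P8H10.TW

open Pool.Agent.P8H10.SF

/-- the core -/
theorem core {K Ω : Type} [Field K] [Field Ω] [Algebra K Ω] (τ : Ω →+* Ω)
    (hτK : ∀ c : K, τ (algebraMap K Ω c) = algebraMap K Ω c) (x : Ω) (c : K)
    (hx : τ x = algebraMap K Ω c * x) (hc2 : c ^ 2 ≠ 1) (U : Submodule K Ω)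
    (hU : ∀ w ∈ U, τ w = w) (M : Matrix (Fin 2) (Fin 2) Ω)
    (hM : ∀ i j, M i j ∈ U ⊔ Submodule.span K {x}) (hdet : M.det = 0) :
    (∀ i j, M i j ∈ U) ∨ HasZero K M := by
  classical
  by_cases hx0 : x = 0
  · left
    intro i j
    have h1 := hM i j
    rw [hx0, Submodule.span_zero_singleton, sup_bot_eq] at h1
    exact h1
  have hdec : ∀ i j, ∃ w ∈ U, ∃ a : K, M i j = w + algebraMap K Ω a * x := by
    intro i j
    obtain ⟨w, hw, s, hs, hsum⟩ := Submodule.mem_sup.1 (hM i j)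
    obtain ⟨a, rfl⟩ := Submodule.mem_span_singleton.1 hs
    exact ⟨w, hw, a, by rw [← hsum, Algebra.smul_def]⟩
  choose w hw m hMe using hdec
  obtain ⟨l, hl⟩ : ∃ l, l = algebraMap K Ω c := ⟨_, rfl⟩
  have hτl : τ l = l := by rw [hl, hτK]
  have hl0 : l ≠ 0 := by
    intro h
    apply hx0
    apply τ.injective
    rw [map_zero, hx, ← hl, h, zero_mul]
  have hl2 : (l - 1) * (l + 1) ≠ 0 := by
    intro h
    apply hc2
    apply (algebraMap K Ω).injective
    rw [map_pow, map_one, ← hl]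
    linear_combination h
  have hl1 : l - 1 ≠ 0 := fun h => hl2 (by rw [h, zero_mul])
  obtain ⟨A, hA⟩ : ∃ A, A = w 0 0 * w 1 1 - w 0 1 * w 1 0 := ⟨_, rfl⟩
  obtain ⟨B, hB⟩ : ∃ B, B = w 0 0 * algebraMap K Ω (m 1 1) + algebraMap K Ω (m 0 0) * w 1 1 -
    w 0 1 * algebraMap K Ω (m 1 0) - algebraMap K Ω (m 0 1) * w 1 0 := ⟨_, rfl⟩
  obtain ⟨D, hD⟩ : ∃ D, D = algebraMap K Ω (m 0 0) * algebraMap K Ω (m 1 1) -
    algebraMap K Ω (m 0 1) * algebraMap K Ω (m 1 0) := ⟨_, rfl⟩
  have hwf : ∀ i j, τ (w i j) = w i j := fun i j => hU _ (hw i j)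
  have tA : τ A = A := by rw [hA]; simp only [map_sub, map_mul, hwf]
  have tB : τ B = B := by rw [hB]; simp only [map_sub, map_add, map_mul, hwf, hτK]
  have tD : τ D = D := by rw [hD]; simp only [map_sub, map_mul, hτK]
  have e1 : A + x * B + x ^ 2 * D = 0 := by
    rw [Matrix.det_fin_two] at hdet
    simp only [hMe] at hdet
    rw [hA, hB, hD]
    linear_combination hdet
  have e2 : A + l * x * B + l ^ 2 * x ^ 2 * D = 0 := by
    have h := congrArg τ e1
    rw [map_add, map_add, map_mul, map_mul, map_pow, tA, tB, tD, hx, ← hl, map_zero] at h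
    linear_combination h
  have e3 : A + l ^ 2 * x * B + l ^ 4 * x ^ 2 * D = 0 := by
    have h := congrArg τ e2
    rw [map_add, map_add, map_mul, map_mul, map_mul, map_mul, map_pow, map_pow, tA, tB, tD, hx,
      hτl, ← hl, map_zero] at h
    linear_combination h
  have f1 : x * B + (l + 1) * (x ^ 2 * D) = 0 := by
    have h : (l - 1) * (x * B + (l + 1) * (x ^ 2 * D)) = 0 := by linear_combination e2 - e1
    exact (mul_eq_zero.1 h).resolve_left hl1
  have f2 : x * B + l * (l + 1) * (x ^ 2 * D) = 0 := by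
    have h : (l * (l - 1)) * (x * B + l * (l + 1) * (x ^ 2 * D)) = 0 := by
      linear_combination e3 - e2
    exact (mul_eq_zero.1 h).resolve_left (mul_ne_zero hl0 hl1)
  have hD0 : D = 0 := by
    have h : ((l - 1) * (l + 1)) * (x ^ 2 * D) = 0 := by linear_combination f2 - f1
    have h2 := (mul_eq_zero.1 h).resolve_left hl2
    exact (mul_eq_zero.1 h2).resolve_left (pow_ne_zero 2 hx0)
  have hB0 : B = 0 := by
    rw [hD0] at f1
    have h : x * B = 0 := by linear_combination f1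
    exact (mul_eq_zero.1 h).resolve_left hx0
  by_cases hm : Matrix.of m = 0
  · left
    intro i j
    have h1 : m i j = 0 := congrFun (congrFun hm i) j
    rw [hMe, h1, map_zero, zero_mul, add_zero]
    exact hw i j
  right
  have hmd : (Matrix.of m).det = 0 := by
    apply (algebraMap K Ω).injective
    rw [Matrix.det_fin_two, map_zero, map_sub, map_mul, map_mul]
    simp only [Matrix.of_apply]
    rw [← hD, hD0]
  obtain ⟨u, v, hu, hv, h⟩ := Pool.Agent.P8H78.SF.pair_of (algebraMap K Ω) (Matrix.of m) hm hmd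
  refine ⟨u, v, hu, hv, ?_⟩
  rw [h M]
  simp only [Pool.Agent.P8H78.SF.Bf, Matrix.map_apply, Matrix.of_apply, hMe]
  rw [hB] at hB0
  rw [hD] at hD0
  linear_combination hB0 + 2 * x * hD0

variable {p : ℕ} [hp : Fact p.Prime]

/-- **One eigenvector.** -/
theorem step (τ : PadicAlgCl p ≃ₐ[ℚ_[p]] PadicAlgCl p) (x : PadicAlgCl p) (c : KQ p)
    (hx : τ x = c * x) (hc2 : c ^ 2 ≠ 1) (U : Submodule (KQ p) (PadicAlgCl p))
    (hU : ∀ w ∈ U, τ w = w) (M : Matrix (Fin 2) (Fin 2) (PadicAlgCl p))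
    (hM : ∀ i j, M i j ∈ U ⊔ Submodule.span (KQ p) {x}) (hbad : Bad M) : ∀ i j, M i j ∈ U := by
  rcases core (Pool.Agent.P8H33.QC.rh τ) (fix_KQ τ) x c hx hc2 U (fun w hw => hU w hw) M hM
    hbad.2.2 with h | h
  · exact h
  · exact absurd hbad (not_bad_of_zero Pool.Agent.P8H46.SF.zer h)

end Pool.Agent.P8H10.TW
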