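import Mathlib

/-!
# Project TW: infinite-dimensional spaces for the strong four exponentials, every `p ≥ 5` (MP_dd0d16_nt)
-/

set_option autoImplicit false

open Polynomial

namespace Pool.Agent.P8H10.TW

/-- **HEN** (about 40 lines, Mathlib only). The roots of unity of order `p - 1` in `ℚ_p`.

Proof. Let `g` be a generator of `(ZMod p)ˣ`, `a : ℤ_[p]` with `toZMod a = g`. Hensel's lemma (`hensels_lemma`) for
`X ^ (p - 1) - 1` at `a`: the value has norm `< 1` and the derivative `(p - 1) a ^ (p - 2)` is a unit. The root `z` is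
congruent to `a`, so `z ^ k = 1` gives `g ^ k = 1`, and `p - 1` divides `k`. -/
def S_HEN : Prop := ∀ (p : ℕ) [Fact p.Prime], ∃ z : ℚ_[p], IsPrimitiveRoot z (p - 1)

/-- **EIS** (about 40 lines, Mathlib only). The roots of `X ^ N - p` are conjugate.

Proof. `X ^ N - C p` over `ℤ_[p]` is irreducible by Eisenstein's criterion, so over `ℚ_[p]` by Gauss's lemma
(`Polynomial.Monic.irreducible_iff_irreducible_map_fraction_map`); it is the minimal polynomial of both numbers
(`minpoly.eq_of_irreducible_of_monic`), and conjugate elements are related by an automorphism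
(`isConjRoot_iff_exists_algEquiv`). -/
def S_EIS : Prop := ∀ (p : ℕ) [Fact p.Prime] (N : ℕ), N ≠ 0 → ∀ θ θ' : PadicAlgCl p,
  θ ^ N = (p : PadicAlgCl p) → θ' ^ N = (p : PadicAlgCl p) →
  ∃ τ : PadicAlgCl p ≃ₐ[ℚ_[p]] PadicAlgCl p, τ θ = θ'

/-- **LGN** (about 40 lines, Mathlib only; perhaps already in the library). The logarithm near one.

Proof. Put `c = p ‖z‖ < 1`. For `n ≥ 1` the term `z ^ (n + 1) / (n + 1)` has norm at most
`‖z‖ * ‖z‖ ^ n * (n + 1) ≤ ‖z‖ * c ^ n * ((n + 1) / p ^ n) ≤ c ‖z‖`, as `‖(n + 1 : ℕ)‖ ≥ 1 / (n + 1)` and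
`n + 1 ≤ 2 ^ n ≤ p ^ n`. So all partial sums without the first term have norm at most `c ‖z‖`
(`IsUltrametricDist.norm_sum_le_of_forall_le_of_nonneg`), and so has the limit. -/
def S_LGN : Prop := ∀ (p : ℕ) [Fact p.Prime] (L : PadicAlgCl p → PadicAlgCl p),
  (∀ z : PadicAlgCl p, ‖z‖ < 1 → HasSum (fun n : ℕ =>
    (-1 : PadicAlgCl p) ^ n * z ^ (n + 1) / ((n : PadicAlgCl p) + 1)) (L (1 + z))) →
  ∀ z : PadicAlgCl p, z ≠ 0 → ‖z‖ < 1 / p → ‖L (1 + z) - z‖ < ‖z‖

end Pool.Agent.P8H10.TW
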