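import Pool.Agent.P8H10.TW.Tow2
import Pool.Agent.P8H43.TW.Eis
import Pool.Agent.P8H76.TW.Hen
import Pool.Agent.P8H34.TW.Lgn
import Pool.Agent.P8H10.SF.Ex2

/-!
# Project TW: assembly
-/

set_option autoImplicit false

open Matrix Module

namespace Pool.Agent.P8H10.TW

open Pool.Agent.P8H10.SF
open Pool.Agent.W245.PB (IsIwasawaLog)

variable {p : ℕ} [hp : Fact p.Prime] {n : ℕ} {θ : ℕ → PadicAlgCl p}
  {L : PadicAlgCl p → PadicAlgCl p}

theorem fin_main (hL : IsIwasawaLog p L) {z : ℚ_[p]} (hz : z ^ n = 1) (hz2 : z ^ 2 ≠ 1)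
    (hn : 0 < n) (h : Tower n θ)
    (U : Submodule (KQ p) (PadicAlgCl p)) (hU : ∀ w ∈ U, ∃ b : ℚ_[p], (b : PadicAlgCl p) = w)
    (M : Matrix (Fin 2) (Fin 2) (PadicAlgCl p))
    (hM : ∀ i j, M i j ∈ U ⊔ Submodule.span (KQ p) (Set.range fun k => xx L n z (θ (k + 1))))
    (hbad : Bad M) : ∀ i j, M i j ∈ U :=
  tower_main hL hz hz2 hn Pool.Agent.P8H43.TW.eis h U hU M hM hbad

theorem fin_two (y₁ y₂ : PadicAlgCl p) {M : Matrix (Fin 2) (Fin 2) (PadicAlgCl p)}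
    (hM : ∀ i j, M i j ∈ Submodule.span (KQ p) {y₁, y₂}) : ¬ Bad M :=
  not_bad_two Pool.Agent.P8H26.SF.two y₁ y₂ hM

theorem fin_pair (b₁ b₂ : ℚ_[p]) :
    ∀ w ∈ Submodule.span (KQ p) {(b₁ : PadicAlgCl p), (b₂ : PadicAlgCl p)},
      ∃ b : ℚ_[p], (b : PadicAlgCl p) = w := by
  intro w hw
  obtain ⟨a, c, rfl⟩ := Submodule.mem_span_pair.1 hw
  refine ⟨toQ a * b₁ + toQ c * b₂, ?_⟩
  have h1 := toQ_spec a
  have h2 := toQ_spec c
  change algebraMap ℚ_[p] (PadicAlgCl p) (toQ a * b₁ + toQ c * b₂) = _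
  rw [map_add, map_mul, map_mul, h1, h2]
  rfl

theorem sum_ext (x : ℕ → PadicAlgCl p) (s : Finset ℕ) (N : ℕ) (hN : s ⊆ Finset.range N)
    (g : ℕ → KQ p) : ∑ i ∈ Finset.range N, ((if i ∈ s then g i else 0 : KQ p) : PadicAlgCl p) * x i =
      ∑ i ∈ s, g i • x i := by
  have e1 : ∑ i ∈ s, ((if i ∈ s then g i else 0 : KQ p) : PadicAlgCl p) * x i =
      ∑ i ∈ Finset.range N, ((if i ∈ s then g i else 0 : KQ p) : PadicAlgCl p) * x i :=
    Finset.sum_subset hN (fun i _ hi => by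
      rw [if_neg hi]
      exact zero_mul _)
  rw [← e1]
  refine Finset.sum_congr rfl fun i hi => ?_
  rw [if_pos hi]
  rfl

theorem fin_key (hL : IsIwasawaLog p L) {z : ℚ_[p]} (hz : z ^ n = 1) (hz2 : z ^ 2 ≠ 1)
    (hn : 0 < n) (hnp : ¬ p ∣ n) (h : Tower n θ) (s : Finset ℕ) (g : ℕ → KQ p) (u : ℚ_[p])
    (hg : (u : PadicAlgCl p) + ∑ i ∈ s, g i • xx L n z (θ (i + 1)) = 0) : ∀ i ∈ s, g i = 0 := by
  classical
  obtain ⟨N, hN⟩ : ∃ N, s ⊆ Finset.range N := ⟨_, s.subset_range_sup_succ⟩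
  have h1 := tower_indep hL hz hz2 hn Pool.Agent.P8H43.TW.eis Pool.Agent.P8H34.TW.lgn h hnp N u
    (fun i => if i ∈ s then g i else 0) (by
      rw [sum_ext (fun i => xx L n z (θ (i + 1))) s N hN g]
      exact hg)
  intro i hi
  have h2 := h1 i (Finset.mem_range.1 (hN hi))
  simp only [if_pos hi] at h2
  exact h2

theorem fin_indep (hL : IsIwasawaLog p L) {z : ℚ_[p]} (hz : z ^ n = 1) (hz2 : z ^ 2 ≠ 1)
    (hn : 0 < n) (hnp : ¬ p ∣ n) (h : Tower n θ) :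
    LinearIndependent (KQ p) (fun k => xx L n z (θ (k + 1))) := by
  rw [linearIndependent_iff']
  intro s g hg
  exact fin_key hL hz hz2 hn hnp h s g 0 (by rw [map_zero, zero_add]; exact hg)

theorem fin_disj (hL : IsIwasawaLog p L) {z : ℚ_[p]} (hz : z ^ n = 1) (hz2 : z ^ 2 ≠ 1)
    (hn : 0 < n) (hnp : ¬ p ∣ n) (h : Tower n θ)
    (U : Submodule (KQ p) (PadicAlgCl p)) (hU : ∀ w ∈ U, ∃ b : ℚ_[p], (b : PadicAlgCl p) = w) :
    Disjoint U (Submodule.span (KQ p) (Set.range fun k => xx L n z (θ (k + 1)))) := by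
  rw [Submodule.disjoint_def]
  intro w hw hwx
  obtain ⟨b, rfl⟩ := hU w hw
  obtain ⟨c, hc⟩ := (Finsupp.mem_span_range_iff_exists_finsupp).1 hwx
  have hc' : ∑ i ∈ c.support, c i • xx L n z (θ (i + 1)) = (b : PadicAlgCl p) := hc
  have h1 := fin_key hL hz hz2 hn hnp h c.support c (-b) (by
    rw [hc', map_neg]
    exact neg_add_cancel _)
  rw [← hc']
  refine Finset.sum_eq_zero fun i hi => ?_
  rw [h1 i hi, zero_smul]

/-- the elements are linear forms in logarithms -/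
theorem fin_mem {z : ℚ_[p]} (hz : z ^ n = 1) (hn : 0 < n) (h : Tower n θ) (k : ℕ)
    (W : Submodule (algebraicClosure ℚ (PadicAlgCl p)) (PadicAlgCl p))
    (hW : ∀ α : PadicAlgCl p, α ≠ 0 → IsAlgebraic ℚ α → L α ∈ W) : xx L n z (θ k) ∈ W := by
  have hza : IsAlgebraic ℚ (z : PadicAlgCl p) := by
    refine IsAlgebraic.of_pow hn ?_
    rw [z_pow hz]
    exact isAlgebraic_one
  have hpa : IsAlgebraic ℚ (p : PadicAlgCl p) := by
    have h1 := isAlgebraic_algebraMap (R := ℚ) (A := PadicAlgCl p) (p : ℚ)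
    rwa [map_natCast] at h1
  have hta : IsAlgebraic ℚ (θ k) := by
    refine IsAlgebraic.of_pow (pow_pos hn k) ?_
    rw [h.pow_p]
    exact hpa
  refine Submodule.sum_mem _ fun j _ => ?_
  have h2 : IsAlgebraic ℚ (1 + (p : PadicAlgCl p) * ((z : PadicAlgCl p) ^ j * θ k)) :=
    isAlgebraic_one.add (hpa.mul ((hza.pow j).mul hta))
  exact W.smul_mem (⟨(z : PadicAlgCl p)⁻¹ ^ j, mem_algebraicClosure_iff.2 (hza.inv.pow j)⟩ :
    algebraicClosure ℚ (PadicAlgCl p)) (hW _ (arg_ne hz hn (h.norm_lt hn k) j) h2)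

/-- existence for `p ≥ 5` -/
theorem fin_exists (hp5 : 5 ≤ p) : ∃ z : ℚ_[p], z ^ (p - 1) = 1 ∧ z ^ 2 ≠ 1 := by
  obtain ⟨z, hz⟩ := Pool.Agent.P8H76.TW.hen p
  refine ⟨z, hz.pow_eq_one, fun h => ?_⟩
  have h1 := Nat.le_of_dvd two_pos (hz.dvd_of_pow_eq_one 2 h)
  omega

end Pool.Agent.P8H10.TW
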