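import Pool.Agent.P8H10.TW.Fin

/-!
# Project TW: chains of eigenvectors
-/

set_option autoImplicit false

open Matrix Module

namespace Pool.Agent.P8H10.TW

open Pool.Agent.P8H10.SF
open Pool.Agent.W245.PB (IsIwasawaLog)

variable {p : ℕ} [hp : Fact p.Prime]

/-- **Chains of eigenvectors.** -/
theorem chain_main (x : ℕ → PadicAlgCl p) (τ : ℕ → PadicAlgCl p ≃ₐ[ℚ_[p]] PadicAlgCl p)
    (c : ℕ → KQ p) (hx : ∀ k, τ k (x k) = (c k : PadicAlgCl p) * x k) (hc : ∀ k, c k ^ 2 ≠ 1)
    (hfix : ∀ k i, i < k → τ k (x i) = x i)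
    (U : Submodule (KQ p) (PadicAlgCl p)) (hU : ∀ k, ∀ w ∈ U, τ k w = w)
    (M : Matrix (Fin 2) (Fin 2) (PadicAlgCl p))
    (hM : ∀ i j, M i j ∈ U ⊔ Submodule.span (KQ p) (Set.range x))
    (hbad : Bad M) : ∀ i j, M i j ∈ U := by
  classical
  obtain ⟨V, hV⟩ : ∃ V : ℕ → Submodule (KQ p) (PadicAlgCl p), V = fun k =>
    U ⊔ Submodule.span (KQ p) (x '' Set.Iio k) := ⟨_, rfl⟩
  have hmono : Monotone V := by
    intro a b hab
    rw [hV]
    exact sup_le_sup_left (Submodule.span_mono (Set.image_mono (Set.Iio_subset_Iio hab))) _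
  have hsup : U ⊔ Submodule.span (KQ p) (Set.range x) ≤ ⨆ k, V k := by
    refine sup_le ?_ (Submodule.span_le.2 ?_)
    · refine le_trans ?_ (le_iSup V 0)
      rw [hV]
      exact le_sup_left
    · rintro _ ⟨k, rfl⟩
      have h1 : x k ∈ V (k + 1) := by
        rw [hV]
        exact Submodule.mem_sup_right (Submodule.subset_span ⟨k, Set.mem_Iio.2 (Nat.lt_succ_self k), rfl⟩)
      exact (le_iSup V (k + 1)) h1
  have hex : ∀ i j, ∃ k, M i j ∈ V k := fun i j =>
    (Submodule.mem_iSup_of_directed V hmono.directed_le).1 (hsup (hM i j))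
  choose f hf using hex
  have hstep : ∀ k, (∀ i j, M i j ∈ V k) → ∀ i j, M i j ∈ U := by
    intro k
    induction k with
    | zero =>
      intro h1 i j
      have h2 := h1 i j
      rw [hV] at h2
      simp only [Set.Iio_zero_eq_empty, Set.image_empty, Submodule.span_empty, sup_bot_eq] at h2
      exact h2
    | succ k ih =>
      intro h1
      apply ih
      have hVs : V (k + 1) ≤ V k ⊔ Submodule.span (KQ p) {x k} := by
        rw [hV]
        refine sup_le (le_sup_of_le_left le_sup_left) (Submodule.span_le.2 ?_)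
        rintro _ ⟨i, hi, rfl⟩
        rcases Nat.lt_succ_iff_lt_or_eq.1 (Set.mem_Iio.1 hi) with hi | rfl
        · exact Submodule.mem_sup_left (Submodule.mem_sup_right (Submodule.subset_span ⟨i, hi, rfl⟩))
        · exact Submodule.mem_sup_right (Submodule.subset_span rfl)
      have hfV : ∀ w ∈ V k, τ k w = w := by
        intro w hw
        rw [hV] at hw
        obtain ⟨u, hu, s, hs, rfl⟩ := Submodule.mem_sup.1 hw
        have h4 : τ k s = s := by
          refine Submodule.span_induction (p := fun y _ => τ k y = y) ?_ (map_zero _) ?_ ?_ hs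
          · rintro _ ⟨i, hi, rfl⟩
            exact hfix k i (Set.mem_Iio.1 hi)
          · intro a b _ _ ha hb
            rw [map_add, ha, hb]
          · intro a y _ hy
            have hc : τ k (a : PadicAlgCl p) = a := fix_KQ (τ k) a
            change τ k ((a : PadicAlgCl p) * y) = (a : PadicAlgCl p) * y
            rw [map_mul, hc, hy]
        rw [map_add, hU k u hu, h4]
      exact step (τ k) (x k) (c k) (hx k) (hc k) (V k) hfV M (fun i j => hVs (h1 i j)) hbad
  refine hstep (f 0 0 ⊔ f 0 1 ⊔ f 1 0 ⊔ f 1 1) fun i j => ?_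
  refine hmono ?_ (hf i j)
  fin_cases i <;> fin_cases j <;> simp

/-- the tower is a chain -/
theorem tower_chain {n : ℕ} {θ : ℕ → PadicAlgCl p} {L : PadicAlgCl p → PadicAlgCl p}
    (hL : IsIwasawaLog p L) {z : ℚ_[p]} (hz : z ^ n = 1) (hz2 : z ^ 2 ≠ 1)
    (hn : 0 < n) (h : Tower n θ)
    (U : Submodule (KQ p) (PadicAlgCl p)) (hU : ∀ w ∈ U, ∃ b : ℚ_[p], (b : PadicAlgCl p) = w) :
    ∃ (τ : ℕ → PadicAlgCl p ≃ₐ[ℚ_[p]] PadicAlgCl p) (c : ℕ → KQ p),
      (∀ k, τ k (xx L n z (θ (k + 1))) = (c k : PadicAlgCl p) * xx L n z (θ (k + 1))) ∧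
      (∀ k, c k ^ 2 ≠ 1) ∧
      (∀ k i, i < k → τ k (xx L n z (θ (i + 1))) = xx L n z (θ (i + 1))) ∧
      ∀ k, ∀ w ∈ U, τ k w = w := by
  choose τ hτ hfix using fun k => h.auto hz Pool.Agent.P8H43.TW.eis hn k
  refine ⟨τ, fun _ => zK hz hn, fun k => xx_eig hL hz hn (h.norm_lt hn _) _ (hτ k), fun k h5 => ?_,
    fun k i hi => xx_fix hL hz hn (h.norm_lt hn _) _ (hfix k _ (Nat.succ_le_of_lt hi)),
    fun k w hw => ?_⟩
  · apply hz2
    apply Pool.Agent.P8H10.SF.cast_inj
    have h6 := congrArg (fun c : KQ p => (c : PadicAlgCl p)) h5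
    have h7 : ((zK hz hn : KQ p) : PadicAlgCl p) = z := rfl
    push_cast at h6
    rw [h7] at h6
    rw [map_pow, map_one]
    exact h6
  · obtain ⟨b, rfl⟩ := hU w hw
    exact AlgEquiv.commutes _ b

end Pool.Agent.P8H10.TW
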