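import Pool.Agent.P8H10.TW.Core
import Pool.Agent.P8H10.TW.Stm

/-!
# Project TW: the tower
-/

set_option autoImplicit false

open Matrix Module

namespace Pool.Agent.P8H10.TW

open Pool.Agent.P8H10.SF
open Pool.Agent.W245.PB (IsIwasawaLog)
open Pool.Agent.P8H10 (log_gal)

variable {p : ℕ} [hp : Fact p.Prime]

/-- a tower of roots of `p` -/
structure Tower (n : ℕ) (θ : ℕ → PadicAlgCl p) : Prop where
  zero : θ 0 = (p : PadicAlgCl p)
  succ : ∀ k, θ (k + 1) ^ n = θ k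

/-- the element of the tower -/
noncomputable def xx (L : PadicAlgCl p → PadicAlgCl p) (n : ℕ) (z : ℚ_[p]) (t : PadicAlgCl p) :
    PadicAlgCl p :=
  ∑ j ∈ Finset.range n, (z : PadicAlgCl p)⁻¹ ^ j *
    L (1 + (p : PadicAlgCl p) * ((z : PadicAlgCl p) ^ j * t))

theorem exists_tower (n : ℕ) (hn : 0 < n) : ∃ θ : ℕ → PadicAlgCl p, Tower n θ := by
  have h : ∀ a : PadicAlgCl p, ∃ b : PadicAlgCl p, b ^ n = a := fun a =>
    IsAlgClosed.exists_pow_nat_eq a hn
  choose f hf using h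
  exact ⟨fun k => Nat.rec (p : PadicAlgCl p) (fun _ a => f a) k, rfl, fun k => hf _⟩

variable {n : ℕ} {θ : ℕ → PadicAlgCl p}

theorem Tower.pow (h : Tower n θ) (i d : ℕ) : θ (i + d) ^ (n ^ d) = θ i := by
  induction d with
  | zero => simp
  | succ d ih => rw [← add_assoc, pow_succ', pow_mul, h.succ, ih]

theorem Tower.pow_p (h : Tower n θ) (k : ℕ) : θ k ^ (n ^ k) = (p : PadicAlgCl p) := by
  have := h.pow 0 k
  rwa [zero_add, h.zero] at this

theorem Tower.ne_zero (h : Tower n θ) (hn : 0 < n) (k : ℕ) : θ k ≠ 0 := by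
  intro h0
  have h1 := h.pow_p k
  rw [h0, zero_pow (pow_pos hn k).ne'] at h1
  exact (Nat.cast_ne_zero.2 hp.out.ne_zero) h1.symm

theorem norm_p : ‖(p : PadicAlgCl p)‖ = (p : ℝ)⁻¹ := by
  have h := PadicAlgCl.norm_extends p (p : ℚ_[p])
  rw [map_natCast] at h
  rw [h, Padic.norm_p]

theorem Tower.norm_lt (h : Tower n θ) (hn : 0 < n) (k : ℕ) : ‖θ k‖ < 1 := by
  by_contra hcon
  push Not at hcon
  have h1 := congrArg norm (h.pow_p k)
  rw [norm_pow, norm_p] at h1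
  have h2 : 1 ≤ ‖θ k‖ ^ n ^ k := one_le_pow₀ hcon
  rw [h1] at h2
  have h3 : (1 : ℝ) < p := by exact_mod_cast hp.out.one_lt
  have h4 := inv_lt_one_of_one_lt₀ h3
  linarith

section

variable {z : ℚ_[p]} (hz : z ^ n = 1)
include hz

theorem z_pow : (z : PadicAlgCl p) ^ n = 1 := by
  rw [← map_pow, hz, map_one]

/-- the automorphisms of the tower -/
theorem Tower.auto (hE : S_EIS) (h : Tower n θ) (hn : 0 < n) (k : ℕ) :
    ∃ τ : PadicAlgCl p ≃ₐ[ℚ_[p]] PadicAlgCl p, τ (θ (k + 1)) = z * θ (k + 1) ∧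
      ∀ i, i ≤ k → τ (θ i) = θ i := by
  have hzn : ∀ d, (z : PadicAlgCl p) ^ (n ^ (d + 1)) = 1 := by
    intro d
    rw [pow_succ', pow_mul, z_pow hz, one_pow]
  obtain ⟨τ, hτ⟩ := hE p (n ^ (k + 1)) (pow_pos hn _).ne' (θ (k + 1)) (z * θ (k + 1))
    (h.pow_p _) (by rw [mul_pow, hzn, one_mul, h.pow_p])
  refine ⟨τ, hτ, fun i hi => ?_⟩
  obtain ⟨d, rfl⟩ := Nat.exists_eq_add_of_le hi
  have h1 := h.pow i (d + 1)
  rw [← add_assoc] at h1
  rw [← h1, map_pow, hτ, mul_pow, hzn, one_mul]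

theorem norm_z (hn : 0 < n) : ‖(z : PadicAlgCl p)‖ = 1 := by
  have h1 := congrArg norm (z_pow hz)
  rw [norm_pow, norm_one] at h1
  exact (pow_eq_one_iff_of_nonneg (norm_nonneg _) hn.ne').1 h1

end

theorem small (L : PadicAlgCl p → PadicAlgCl p) {z : ℚ_[p]} (hz : z ^ n = 1) (hn : 0 < n)
    {t : PadicAlgCl p} (ht : ‖t‖ < 1) (j : ℕ) :
    ‖(p : PadicAlgCl p) * ((z : PadicAlgCl p) ^ j * t)‖ < 1 / p := by
  have hp0 : (0 : ℝ) < p := by exact_mod_cast hp.out.pos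
  rw [norm_mul, norm_mul, norm_pow, norm_z hz hn, one_pow, one_mul, norm_p, one_div]
  have := inv_pos.2 hp0
  nlinarith

theorem arg_ne {z : ℚ_[p]} (hz : z ^ n = 1) (hn : 0 < n)
    {t : PadicAlgCl p} (ht : ‖t‖ < 1) (j : ℕ) :
    1 + (p : PadicAlgCl p) * ((z : PadicAlgCl p) ^ j * t) ≠ 0 := by
  intro h
  have h1 := small (fun x => x) hz hn ht j
  have h2 : (p : PadicAlgCl p) * ((z : PadicAlgCl p) ^ j * t) = -1 := by linear_combination h
  rw [h2, norm_neg, norm_one] at h1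
  have h3 : (1 : ℝ) < p := by exact_mod_cast hp.out.one_lt
  have h4 := inv_lt_one_of_one_lt₀ h3
  rw [one_div] at h1
  linarith

variable {L : PadicAlgCl p → PadicAlgCl p}

/-- automorphisms fixing `t` fix the element -/
theorem xx_fix (hL : IsIwasawaLog p L) {z : ℚ_[p]} (hz : z ^ n = 1) (hn : 0 < n)
    {t : PadicAlgCl p} (ht : ‖t‖ < 1) (τ : PadicAlgCl p ≃ₐ[ℚ_[p]] PadicAlgCl p) (h : τ t = t) :
    τ (xx L n z t) = xx L n z t := by
  have hτz : τ (z : PadicAlgCl p) = z := AlgEquiv.commutes τ z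
  unfold xx
  rw [map_sum]
  refine Finset.sum_congr rfl fun j _ => ?_
  rw [map_mul, map_pow, map_inv₀, hτz, ← log_gal hL τ (arg_ne hz hn ht j), map_add, map_one,
    map_mul, map_mul, map_pow, hτz, map_natCast, h]

/-- the eigenvector -/
theorem xx_eig (hL : IsIwasawaLog p L) {z : ℚ_[p]} (hz : z ^ n = 1) (hn : 0 < n)
    {t : PadicAlgCl p} (ht : ‖t‖ < 1) (τ : PadicAlgCl p ≃ₐ[ℚ_[p]] PadicAlgCl p) (h : τ t = z * t) :
    τ (xx L n z t) = z * xx L n z t := by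
  have hτz : τ (z : PadicAlgCl p) = z := AlgEquiv.commutes τ z
  have hz0 : (z : PadicAlgCl p) ≠ 0 := by
    intro h0
    have h1 := z_pow (p := p) hz
    rw [h0, zero_pow hn.ne'] at h1
    exact zero_ne_one h1
  obtain ⟨f, hf⟩ : ∃ f : ℕ → PadicAlgCl p, f = fun j => (z : PadicAlgCl p)⁻¹ ^ j *
    L (1 + (p : PadicAlgCl p) * ((z : PadicAlgCl p) ^ j * t)) := ⟨_, rfl⟩
  have hx : xx L n z t = ∑ j ∈ Finset.range n, f j := by rw [hf]; rfl
  have hfn : f n = f 0 := by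
    simp only [hf]
    rw [inv_pow, z_pow hz, inv_one, pow_zero, pow_zero]
  have h1 : ∀ j, τ (f j) = z * f (j + 1) := by
    intro j
    simp only [hf]
    rw [map_mul, map_pow, map_inv₀, hτz, ← log_gal hL τ (arg_ne hz hn ht j), map_add, map_one,
      map_mul, map_mul, map_pow, hτz, map_natCast, h, pow_succ, pow_succ (z : PadicAlgCl p) j]
    rw [show (z : PadicAlgCl p) ^ j * (z * t) = (z : PadicAlgCl p) ^ j * z * t by ring]
    field_simp
  have h2 : ∑ j ∈ Finset.range n, f (j + 1) = ∑ j ∈ Finset.range n, f j := by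
    have e1 := Finset.sum_range_succ f n
    have e2 := Finset.sum_range_succ' f n
    rw [hfn] at e1
    linear_combination e1 - e2
  rw [hx, map_sum, ← h2, Finset.mul_sum]
  exact Finset.sum_congr rfl fun j _ => h1 j

end Pool.Agent.P8H10.TW
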