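import Pool.Agent.P8H10.TW.Tow

/-!
# Project TW: the tower, second part
-/

set_option autoImplicit false

open Matrix Module

namespace Pool.Agent.P8H10.TW

open Pool.Agent.P8H10.SF
open Pool.Agent.W245.PB (IsIwasawaLog)

variable {p : ℕ} [hp : Fact p.Prime] {n : ℕ} {θ : ℕ → PadicAlgCl p}
  {L : PadicAlgCl p → PadicAlgCl p}

/-- the elements are not zero -/
theorem xx_ne (hG : S_LGN) (hL : IsIwasawaLog p L) {z : ℚ_[p]} (hz : z ^ n = 1) (hn : 0 < n)
    (hnp : ¬ p ∣ n) {t : PadicAlgCl p} (ht0 : t ≠ 0) (ht : ‖t‖ < 1) : xx L n z t ≠ 0 := by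
  have hp0 : (p : PadicAlgCl p) ≠ 0 := Nat.cast_ne_zero.2 hp.out.ne_zero
  have hz0 : (z : PadicAlgCl p) ≠ 0 := by
    intro h0
    have h1 := z_pow (p := p) hz
    rw [h0, zero_pow hn.ne'] at h1
    exact zero_ne_one h1
  have hzj : ∀ j : ℕ, ‖(z : PadicAlgCl p)⁻¹ ^ j‖ = 1 := by
    intro j
    rw [norm_pow, norm_inv, norm_z hz hn, inv_one, one_pow]
  obtain ⟨r, hr⟩ : ∃ r : ℕ → PadicAlgCl p, r = fun j =>
    L (1 + (p : PadicAlgCl p) * ((z : PadicAlgCl p) ^ j * t)) -
      (p : PadicAlgCl p) * ((z : PadicAlgCl p) ^ j * t) := ⟨_, rfl⟩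
  have hrn : ∀ j, ‖r j‖ < ‖(p : PadicAlgCl p) * t‖ := by
    intro j
    have h1 := hG p L hL.ser ((p : PadicAlgCl p) * ((z : PadicAlgCl p) ^ j * t))
      (mul_ne_zero hp0 (mul_ne_zero (pow_ne_zero _ hz0) ht0)) (small (fun x => x) hz hn ht j)
    have h2 : ‖(p : PadicAlgCl p) * ((z : PadicAlgCl p) ^ j * t)‖ = ‖(p : PadicAlgCl p) * t‖ := by
      rw [norm_mul, norm_mul, norm_pow, norm_z hz hn, one_pow, one_mul, norm_mul]
    rw [h2] at h1
    rw [hr]
    exact h1
  have hsum : xx L n z t = (n : PadicAlgCl p) * ((p : PadicAlgCl p) * t) +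
      ∑ j ∈ Finset.range n, (z : PadicAlgCl p)⁻¹ ^ j * r j := by
    unfold xx
    have h1 : ∀ j ∈ Finset.range n, (z : PadicAlgCl p)⁻¹ ^ j *
        L (1 + (p : PadicAlgCl p) * ((z : PadicAlgCl p) ^ j * t)) =
        (p : PadicAlgCl p) * t + (z : PadicAlgCl p)⁻¹ ^ j * r j := by
      intro j _
      have h3 : (z : PadicAlgCl p)⁻¹ ^ j * (z : PadicAlgCl p) ^ j = 1 := by
        rw [← mul_pow, inv_mul_cancel₀ hz0, one_pow]
      simp only [hr]
      linear_combination ((p : PadicAlgCl p) * t) * h3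
    rw [Finset.sum_congr rfl h1, Finset.sum_add_distrib, Finset.sum_const, Finset.card_range,
      nsmul_eq_mul]
  intro h0
  rw [hsum] at h0
  have h1 : (n : PadicAlgCl p) * ((p : PadicAlgCl p) * t) =
      -∑ j ∈ Finset.range n, (z : PadicAlgCl p)⁻¹ ^ j * r j := by linear_combination h0
  have hnn : ‖(n : PadicAlgCl p)‖ = 1 := by
    have h := PadicAlgCl.norm_extends p (n : ℚ_[p])
    rw [map_natCast] at h
    rw [h]
    exact Padic.norm_natCast_eq_one_iff.2 ((Nat.Prime.coprime_iff_not_dvd hp.out).2 hnp)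
  have h2 := congrArg norm h1
  rw [norm_neg, norm_mul, hnn, one_mul] at h2
  obtain ⟨j, hj, hle⟩ := IsUltrametricDist.exists_norm_finset_sum_le_of_nonempty
    (t := Finset.range n) (Finset.nonempty_range_iff.2 hn.ne')
    (fun j => (z : PadicAlgCl p)⁻¹ ^ j * r j)
  have h8 : ‖(z : PadicAlgCl p)⁻¹ ^ j * r j‖ = ‖r j‖ := by rw [norm_mul, hzj, one_mul]
  have h9 : ‖(p : PadicAlgCl p) * t‖ ≤ ‖(z : PadicAlgCl p)⁻¹ ^ j * r j‖ := by
    rw [h2]
    exact hle
  rw [h8] at h9
  exact absurd (hrn j) (not_lt.2 h9)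

/-- a root of unity as an element of `K` -/
noncomputable def zK {z : ℚ_[p]} (hz : z ^ n = 1) (hn : 0 < n) : KQ p :=
  ⟨(z : PadicAlgCl p), mem_KQ.2 ⟨⟨Polynomial.X ^ n - 1, by
    intro h
    have h1 := congrArg (fun P : Polynomial ℚ => P.eval 0) h
    simp [hn.ne'] at h1, by
    simp only [map_sub, map_pow, Polynomial.aeval_X, map_one]
    rw [z_pow hz, sub_self]⟩, z, rfl⟩⟩

section tower

variable (hL : IsIwasawaLog p L) {z : ℚ_[p]} (hz : z ^ n = 1) (hz2 : z ^ 2 ≠ 1) (hn : 0 < n)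
include hL hz hz2 hn

/-- **The tower.** -/
theorem tower_main (hE : S_EIS) (h : Tower n θ)
    (U : Submodule (KQ p) (PadicAlgCl p)) (hU : ∀ w ∈ U, ∃ b : ℚ_[p], (b : PadicAlgCl p) = w)
    (M : Matrix (Fin 2) (Fin 2) (PadicAlgCl p))
    (hM : ∀ i j, M i j ∈ U ⊔ Submodule.span (KQ p) (Set.range fun k => xx L n z (θ (k + 1))))
    (hbad : Bad M) : ∀ i j, M i j ∈ U := by
  classical
  obtain ⟨V, hV⟩ : ∃ V : ℕ → Submodule (KQ p) (PadicAlgCl p), V = fun k =>
    U ⊔ Submodule.span (KQ p) ((fun k => xx L n z (θ (k + 1))) '' Set.Iio k) := ⟨_, rfl⟩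
  have hmono : Monotone V := by
    intro a b hab
    rw [hV]
    exact sup_le_sup_left (Submodule.span_mono (Set.image_mono (Set.Iio_subset_Iio hab))) _
  have hsup : U ⊔ Submodule.span (KQ p) (Set.range fun k => xx L n z (θ (k + 1))) ≤ ⨆ k, V k := by
    refine sup_le ?_ (Submodule.span_le.2 ?_)
    · refine le_trans ?_ (le_iSup V 0)
      rw [hV]
      exact le_sup_left
    · rintro _ ⟨k, rfl⟩
      have h1 : xx L n z (θ (k + 1)) ∈ V (k + 1) := by
        rw [hV]
        exact Submodule.mem_sup_right (Submodule.subset_span ⟨k, Set.mem_Iio.2 (Nat.lt_succ_self k), rfl⟩)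
      exact (le_iSup V (k + 1)) h1
  have hex : ∀ i j, ∃ k, M i j ∈ V k := fun i j =>
    (Submodule.mem_iSup_of_directed V hmono.directed_le).1 (hsup (hM i j))
  choose f hf using hex
  have hstep : ∀ k, (∀ i j, M i j ∈ V k) → ∀ i j, M i j ∈ U := by
    intro k
    induction k with
    | zero =>
      intro h1 i j
      have h2 := h1 i j
      rw [hV] at h2
      simp only [Set.Iio_zero_eq_empty, Set.image_empty, Submodule.span_empty, sup_bot_eq] at h2
      exact h2
    | succ k ih =>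
      intro h1
      apply ih
      obtain ⟨τ, hτ, hfix⟩ := h.auto hz hE hn k
      have hVs : V (k + 1) ≤ V k ⊔ Submodule.span (KQ p) {xx L n z (θ (k + 1))} := by
        rw [hV]
        refine sup_le (le_sup_of_le_left le_sup_left) (Submodule.span_le.2 ?_)
        rintro _ ⟨i, hi, rfl⟩
        rcases Nat.lt_succ_iff_lt_or_eq.1 (Set.mem_Iio.1 hi) with hi | rfl
        · exact Submodule.mem_sup_left (Submodule.mem_sup_right (Submodule.subset_span ⟨i, hi, rfl⟩))
        · exact Submodule.mem_sup_right (Submodule.subset_span rfl)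
      have hfV : ∀ w ∈ V k, τ w = w := by
        intro w hw
        rw [hV] at hw
        obtain ⟨u, hu, s, hs, rfl⟩ := Submodule.mem_sup.1 hw
        have h3 : τ u = u := by
          obtain ⟨b, rfl⟩ := hU u hu
          exact AlgEquiv.commutes τ b
        have h4 : τ s = s := by
          refine Submodule.span_induction (p := fun y _ => τ y = y) ?_ (map_zero _) ?_ ?_ hs
          · rintro _ ⟨i, hi, rfl⟩
            exact xx_fix hL hz hn (h.norm_lt hn _) τ (hfix _ (Nat.succ_le_of_lt (Set.mem_Iio.1 hi)))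
          · intro a b _ _ ha hb
            rw [map_add, ha, hb]
          · intro c a _ ha
            have hc : τ (c : PadicAlgCl p) = c := fix_KQ τ c
            change τ ((c : PadicAlgCl p) * a) = (c : PadicAlgCl p) * a
            rw [map_mul, hc, ha]
        rw [map_add, h3, h4]
      refine step τ (xx L n z (θ (k + 1))) (zK hz hn) (xx_eig hL hz hn (h.norm_lt hn _) τ hτ) ?_
        (V k) hfV M (fun i j => hVs (h1 i j)) hbad
      intro h5
      apply hz2
      apply Pool.Agent.P8H10.SF.cast_inj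
      have h6 := congrArg (fun c : KQ p => (c : PadicAlgCl p)) h5
      have h7 : ((zK hz hn : KQ p) : PadicAlgCl p) = z := rfl
      push_cast at h6
      rw [h7] at h6
      rw [map_pow, map_one]
      exact h6
  refine hstep (f 0 0 ⊔ f 0 1 ⊔ f 1 0 ⊔ f 1 1) fun i j => ?_
  refine hmono ?_ (hf i j)
  fin_cases i <;> fin_cases j <;> simp

/-- **The dimension.** -/
theorem tower_indep (hE : S_EIS) (hG : S_LGN) (h : Tower n θ) (hnp : ¬ p ∣ n) (k : ℕ) :
    ∀ (u : ℚ_[p]) (c : ℕ → KQ p),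
      (u : PadicAlgCl p) + ∑ i ∈ Finset.range k, (c i : PadicAlgCl p) * xx L n z (θ (i + 1)) = 0 →
      ∀ i < k, c i = 0 := by
  induction k with
  | zero => intro u c _ i hi; omega
  | succ k ih =>
    intro u c hc
    obtain ⟨τ, hτ, hfix⟩ := h.auto hz hE hn k
    have hcz : ∀ a : KQ p, τ (a : PadicAlgCl p) = a := fun a => fix_KQ τ a
    rw [Finset.sum_range_succ] at hc
    have e1 := congrArg τ hc
    rw [map_add, map_add, map_sum, map_mul, hcz, xx_eig hL hz hn (h.norm_lt hn _) τ hτ, map_zero,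
      show τ (u : PadicAlgCl p) = u from AlgEquiv.commutes τ u] at e1
    have e2 : ∑ i ∈ Finset.range k, τ ((c i : PadicAlgCl p) * xx L n z (θ (i + 1))) =
        ∑ i ∈ Finset.range k, (c i : PadicAlgCl p) * xx L n z (θ (i + 1)) := by
      refine Finset.sum_congr rfl fun i hi => ?_
      rw [map_mul, hcz, xx_fix hL hz hn (h.norm_lt hn _) τ
        (hfix _ (Nat.succ_le_of_lt (Finset.mem_range.1 hi)))]
    rw [e2] at e1
    have hz1 : (z : PadicAlgCl p) - 1 ≠ 0 := by
      intro h0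
      apply hz2
      have h1 : z = 1 := by
        apply Pool.Agent.P8H10.SF.cast_inj
        rw [map_one]
        exact sub_eq_zero.1 h0
      rw [h1, one_pow]
    have e3 : ((z : PadicAlgCl p) - 1) * ((c k : PadicAlgCl p) * xx L n z (θ (k + 1))) = 0 := by
      linear_combination e1 - hc
    have e4 := (mul_eq_zero.1 e3).resolve_left hz1
    have e5 : (c k : PadicAlgCl p) = 0 := (mul_eq_zero.1 e4).resolve_right
      (xx_ne hG hL hz hn hnp (h.ne_zero hn _) (h.norm_lt hn _))
    rw [e5, zero_mul, add_zero] at hc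
    have e6 := ih u c hc
    intro i hi
    rcases Nat.lt_succ_iff_lt_or_eq.1 hi with hi | rfl
    · exact e6 i hi
    · exact Subtype.ext e5

end tower

end Pool.Agent.P8H10.TW
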